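import Pool.Agent.LibCN33.Defs

set_option autoImplicit false

noncomputable section

open MeasureTheory Set
open scoped ENNReal

namespace Pool.LibCN33

open Pool.LibDC71 (E V ch Fr)

theorem ph_eq (s : ℝ) : ph s = Complex.exp (((2 * Real.pi * s : ℝ) : ℂ) * Complex.I) := by
  unfold ph
  congr 1
  push_cast
  ring

theorem ph_norm (s : ℝ) : ‖ph s‖ = 1 := by
  rw [ph_eq, Complex.norm_exp_ofReal_mul_I]

theorem ph_add (s t : ℝ) : ph (s + t) = ph s * ph t := by
  unfold ph
  rw [← Complex.exp_add]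
  congr 1
  push_cast
  ring

theorem ph_cont : Continuous ph := by
  unfold ph
  fun_prop

theorem pr_cont {m : ℕ} (x : W m) : Continuous (pr x) := by
  unfold pr; fun_prop

theorem pr_cont2 {m : ℕ} : Continuous (fun p : W m × W m => pr p.1 p.2) := by
  unfold pr; fun_prop

theorem int_mul {α : Type} [MeasurableSpace α] {μ : Measure α} {φ : α → ℂ} (hφ : Integrable φ μ)
    (f : α → ℂ) (hf : AEStronglyMeasurable f μ) (h1 : ∀ a, ‖f a‖ ≤ 1) :
    Integrable (fun a => φ a * f a) μ := by
  have := hφ.bdd_mul (c := 1) hf (Filter.Eventually.of_forall h1)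
  refine this.congr (Filter.Eventually.of_forall fun a => ?_)
  simp only
  ring

theorem Fc.mono {m : ℕ} {U U' : Set (W m)} {f : W m → ℂ} (h : Fc U f) (hU : U ⊆ U') : Fc U' f := by
  obtain ⟨S, iS, σ, g, φ, h1, h2, h3, h4, h5⟩ := h
  exact ⟨S, iS, σ, g, φ, h1, h2, h3, fun s hs => hU (h4 s hs), h5⟩

/-- continuity -/
theorem Fc.continuous {m : ℕ} {U : Set (W m)} {f : W m → ℂ} (h : Fc U f) : Continuous f := by
  obtain ⟨S, iS, σ, g, φ, h1, h2, h3, h4, h5⟩ := h
  have h6 : f = fun z => ∫ s, φ s * ph (pr z (g s)) ∂σ := funext h5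
  rw [h6]
  refine continuous_of_dominated (bound := fun s => ‖φ s‖) (fun z => ?_) (fun z => ?_) h3.norm ?_
  · have : Measurable (fun s => ph (pr z (g s))) :=
      (ph_cont.comp (pr_cont z)).measurable.comp h2
    exact h3.aestronglyMeasurable.mul this.aestronglyMeasurable
  · refine Filter.Eventually.of_forall fun s => ?_
    rw [norm_mul, ph_norm, mul_one]
  · refine Filter.Eventually.of_forall fun s => ?_
    have : Continuous (fun z : W m => pr z (g s)) := pr_cont2.comp (continuous_id.prodMk continuous_const)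
    exact continuous_const.mul (ph_cont.comp this)

theorem Fc.zero {m : ℕ} (U : Set (W m)) : Fc U (fun _ => 0) := by
  refine ⟨Unit, inferInstance, 0, fun _ => 0, fun _ => 0, inferInstance, measurable_const,
    integrable_zero _ _ _, fun s hs => absurd rfl hs, fun z => by simp⟩

theorem Fc.add {m : ℕ} {U : Set (W m)} {f f' : W m → ℂ} (h : Fc U f) (h' : Fc U f') :
    Fc U (fun z => f z + f' z) := by
  obtain ⟨S, iS, σ, g, φ, h1, h2, h3, h4, h5⟩ := h
  obtain ⟨S', iS', σ', g', φ', h1', h2', h3', h4', h5'⟩ := h'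
  have e1 : MeasurableEmbedding (Sum.inl : S → S ⊕ S') :=
    ⟨Sum.inl_injective, measurable_inl, fun _ hs => measurableSet_inl_image.2 hs⟩
  have e2 : MeasurableEmbedding (Sum.inr : S' → S ⊕ S') :=
    ⟨Sum.inr_injective, measurable_inr, fun _ hs => measurableSet_inr_image.2 hs⟩
  refine ⟨S ⊕ S', inferInstance, Measure.map Sum.inl σ + Measure.map Sum.inr σ',
    Sum.elim g g', Sum.elim φ φ', ?_, h2.sumElim h2', ?_, ?_, ?_⟩
  · infer_instance
  · refine Integrable.add_measure ?_ ?_
    · rw [e1.integrable_map_iff]; exact h3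
    · rw [e2.integrable_map_iff]; exact h3'
  · rintro (s | s) hs
    · exact h4 s hs
    · exact h4' s hs
  · intro z
    rw [integral_add_measure]
    · rw [e1.integral_map, e2.integral_map]
      change f z + f' z = _
      rw [h5 z, h5' z]
      rfl
    · rw [e1.integrable_map_iff]
      exact int_mul h3 _ ((ph_cont.comp (pr_cont z)).measurable.comp h2).aestronglyMeasurable
        fun a => (ph_norm _).le
    · rw [e2.integrable_map_iff]
      exact int_mul h3' _ ((ph_cont.comp (pr_cont z)).measurable.comp h2').aestronglyMeasurable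
        fun a => (ph_norm _).le

theorem Fc.sum {m : ℕ} {U : Set (W m)} {ι : Type} (s : Finset ι) (f : ι → W m → ℂ)
    (h : ∀ i ∈ s, Fc U (f i)) : Fc U (fun z => ∑ i ∈ s, f i z) := by
  classical
  induction s using Finset.induction_on with
  | empty => simpa using Fc.zero U
  | insert a s ha ih =>
    have h1 := (h a (Finset.mem_insert_self a s)).add
      (ih fun i hi => h i (Finset.mem_insert_of_mem hi))
    refine (?_ : (fun z => ∑ i ∈ insert a s, f i z) = _) ▸ h1
    funext z
    rw [Finset.sum_insert ha]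

/-- slices in the variable y -/
theorem Fc.slice {m : ℕ} {U : Set (W m)} {f : W m → ℂ} (h : Fc U f) (y : ℝ) :
    Fr {ζ : V m | ∃ v : ℝ, (ζ.1, v, ζ.2) ∈ U} (fun x : V m => f (x.1, y, x.2)) := by
  obtain ⟨S, iS, σ, g, φ, h1, h2, h3, h4, h5⟩ := h
  refine ⟨S, iS, σ, fun s => ((g s).1, (g s).2.2), fun s => φ s * ph (y * (g s).2.1), h1,
    by fun_prop, ?_, ?_, ?_⟩
  · refine int_mul h3 _ ?_ fun a => (ph_norm _).le
    exact (ph_cont.measurable.comp (by fun_prop)).aestronglyMeasurable
  · intro s hs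
    exact ⟨(g s).2.1, h4 s (left_ne_zero_of_mul hs)⟩
  · intro z
    change f (z.1, y, z.2) = _
    rw [h5]
    refine integral_congr_ae (Filter.Eventually.of_forall fun s => ?_)
    simp only
    rw [mul_assoc]
    congr 1
    have : ch z ((g s).1, (g s).2.2) = ph (inner ℝ z.1 (g s).1 + z.2 * (g s).2.2) := rfl
    rw [this, ← ph_add]
    congr 1
    unfold pr
    ring

/-- composition with a linear map -/
theorem Fc.comp {m : ℕ} {U : Set (W m)} {f : W m → ℂ} (h : Fc U f) (Φ Ψ : W m → W m)
    (hΦ : Measurable Φ) (hpr : ∀ x z, pr x (Φ z) = pr (Ψ x) z) :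
    Fc (Φ '' U) (fun x => f (Ψ x)) := by
  obtain ⟨S, iS, σ, g, φ, h1, h2, h3, h4, h5⟩ := h
  refine ⟨S, iS, σ, fun s => Φ (g s), φ, h1, hΦ.comp h2, h3,
    fun s hs => ⟨g s, h4 s hs, rfl⟩, fun z => ?_⟩
  change f (Ψ z) = _
  rw [h5]
  refine integral_congr_ae (Filter.Eventually.of_forall fun s => ?_)
  simp only
  rw [hpr]

end Pool.LibCN33
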