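import Pool.Agent.LibCN33.A9
import Pool.Agent.LibDC71.Final

set_option autoImplicit false

noncomputable section

open MeasureTheory Set
open scoped ENNReal

namespace Pool.LibCN33

/-- BOUNDARY C of LibST49, in the open range, from the paraboloid -/
theorem cdec (m : ℕ) (q : ℝ) (hq : 2 < q) (hq' : q * m < 2 * (m + 2)) : Pool.LibST49.CDec m q :=
  cdec_of_PD (by linarith) fun A R0 ε L hε => Pool.LibDC71.decoupling m q hq hq' A R0 ε L hε

end Pool.LibCN33
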