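import Pool.Agent.LibCN33.A1

set_option autoImplicit false

noncomputable section

open MeasureTheory Set
open scoped ENNReal

namespace Pool.LibCN33

open Pool.LibDC71 (E V ch Fr)

theorem haar (m : ℕ) : (volume : Measure (W m)).IsAddHaarMeasure := by
  have : (volume : Measure (ℝ × ℝ)).IsAddHaarMeasure := Measure.prod.instIsAddHaarMeasure _ _
  exact Measure.prod.instIsAddHaarMeasure _ _

theorem map_eq {m : ℕ} (Φ : W m ≃L[ℝ] W m) : ∃ c : ℝ, 0 < c ∧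
    Measure.map Φ (volume : Measure (W m)) = ENNReal.ofReal c • volume := by
  have := haar m
  have hdet : LinearMap.det (Φ.toLinearEquiv : W m →ₗ[ℝ] W m) ≠ 0 :=
    (LinearEquiv.isUnit_det' Φ.toLinearEquiv).ne_zero
  refine ⟨|(LinearMap.det (Φ.toLinearEquiv : W m →ₗ[ℝ] W m))⁻¹|, by positivity, ?_⟩
  exact Measure.map_linearMap_addHaar_eq_smul_addHaar (volume : Measure (W m)) hdet

theorem lint_lin {m : ℕ} (Φ : W m ≃L[ℝ] W m) : ∃ c : ℝ, 0 < c ∧
    ∀ F : W m → ℝ≥0∞, ∫⁻ x, F (Φ x) = ENNReal.ofReal c * ∫⁻ x, F x := by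
  obtain ⟨c, hc, h⟩ := map_eq Φ
  refine ⟨c, hc, fun F => ?_⟩
  have h1 := lintegral_map_equiv (μ := (volume : Measure (W m))) F
    Φ.toHomeomorph.toMeasurableEquiv
  have h2 : (⇑(Φ.toHomeomorph.toMeasurableEquiv) : W m → W m) = ⇑Φ := rfl
  rw [h2, h, lintegral_smul_measure] at h1
  rw [← h1]
  rfl

/-- the inequality is invariant under a linear change -/
theorem ineq_lin {m : ℕ} {q : ℝ} {D : ℝ≥0∞} (Ψ : W m ≃L[ℝ] W m) {ι : Type} (s : Finset ι)
    (f : ι → W m → ℂ) (h : Ineq q D s (fun i x => f i (Ψ x))) : Ineq q D s f := by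
  obtain ⟨c, hc, hm⟩ := lint_lin Ψ
  unfold Ineq at h ⊢
  rw [hm (fun x => ‖∑ i ∈ s, f i x‖ₑ ^ q), Finset.sum_congr rfl
    (fun i _ => hm (fun x => ‖f i x‖ₑ ^ q)), ← Finset.mul_sum] at h
  have h4 : ENNReal.ofReal c ≠ 0 := by simpa using hc
  rw [← mul_assoc, mul_comm D, mul_assoc] at h
  exact (ENNReal.mul_le_mul_iff_right h4 ENNReal.ofReal_ne_top).1 h

end Pool.LibCN33
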