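import Pool.Agent.LibCN33.A2

set_option autoImplicit false

noncomputable section

open MeasureTheory Set
open scoped ENNReal

namespace Pool.LibCN33

open Pool.LibDC71 (E V ch Fr)

/-- reordering of the variables -/
def ro (m : ℕ) : ℝ × V m ≃ᵐ W m :=
  MeasurableEquiv.prodComm.trans (MeasurableEquiv.prodAssoc.trans
    (MeasurableEquiv.prodCongr (MeasurableEquiv.refl (E m)) MeasurableEquiv.prodComm))

theorem ro_apply {m : ℕ} (z : ℝ × V m) : ro m z = (z.2.1, z.1, z.2.2) := rfl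

theorem ro_mp (m : ℕ) : MeasurePreserving (ro m) volume volume := by
  have h0 : MeasurePreserving (Prod.swap : ℝ × V m → V m × ℝ) volume volume :=
    MeasureTheory.Measure.measurePreserving_swap
  have h1 : MeasurePreserving (MeasurableEquiv.prodAssoc : (E m × ℝ) × ℝ ≃ᵐ E m × ℝ × ℝ)
      volume volume := MeasureTheory.measurePreserving_prodAssoc volume volume volume
  have h2 : MeasurePreserving (Prod.swap : ℝ × ℝ → ℝ × ℝ) volume volume :=
    MeasureTheory.Measure.measurePreserving_swap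
  have h3 : MeasurePreserving (Prod.map (id : E m → E m) (Prod.swap : ℝ × ℝ → ℝ × ℝ))
      volume volume := (MeasurePreserving.id (volume : Measure (E m))).prod h2
  exact (h3.comp h1).comp h0

theorem lint_slices {m : ℕ} (F : W m → ℝ≥0∞) (hF : Measurable F) :
    ∫⁻ x, F x = ∫⁻ y : ℝ, ∫⁻ z : V m, F (z.1, y, z.2) := by
  rw [← (ro_mp m).lintegral_comp hF]
  change ∫⁻ p : ℝ × V m, _ ∂((volume : Measure ℝ).prod (volume : Measure (V m))) = _
  exact lintegral_prod (fun p : ℝ × V m => F (ro m p)) (hF.comp (ro m).measurable).aemeasurable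

theorem meas_slices {m : ℕ} (F : W m → ℝ≥0∞) (hF : Measurable F) :
    Measurable (fun y : ℝ => ∫⁻ z : V m, F (z.1, y, z.2)) := by
  have : Measurable (fun p : ℝ × V m => F (p.2.1, p.1, p.2.2)) := hF.comp (by fun_prop)
  exact this.lintegral_prod_right'

theorem Fc.meas {m : ℕ} {U : Set (W m)} {f : W m → ℂ} (h : Fc U f) (q : ℝ) :
    Measurable (fun x => ‖f x‖ₑ ^ q) :=
  (h.continuous.measurable.enorm).pow_const q

/-- the flat step -/
theorem flat {m : ℕ} {q : ℝ} (hPD : PD m q) (A R0 ε : ℝ) (L : ℕ) (hε : 0 < ε) :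
    ∃ C : ℝ≥0∞, C ≠ ⊤ ∧ ∀ (a k : ℕ), k ≤ a → ∀ (ι : Type) (s : Finset ι) (ξ : ι → E m)
      (f : ι → W m → ℂ), Fam A R0 1 (1 + 1 / 4 ^ a) L k s ξ f → Ineq q (C * fac m q ε k) s f := by
  set B : ℝ := |R0| + |A| with hB
  have hB0 : 0 ≤ B := by positivity
  obtain ⟨C, hC, h⟩ := hPD (|A| + 2 * B + 4 * B ^ 2) R0 ε L hε
  refine ⟨C, hC, fun a k hka ι s ξ f hf => ?_⟩
  have hcont : ∀ i ∈ s, Continuous (f i) := fun i hi => (hf.fr i hi).continuous
  have hmeas : ∀ i ∈ s, Measurable (fun x => ‖f i x‖ₑ ^ q) := fun i hi => (hf.fr i hi).meas q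
  have hms : Measurable (fun x => ‖∑ i ∈ s, f i x‖ₑ ^ q) :=
    ((continuous_finsetSum s hcont).measurable.enorm).pow_const q
  unfold Ineq
  rw [lint_slices _ hms]
  have key : ∀ y : ℝ, ∫⁻ z : V m, ‖∑ i ∈ s, f i (z.1, y, z.2)‖ₑ ^ q ≤
      C * fac m q ε k * ∑ i ∈ s, ∫⁻ z : V m, ‖f i (z.1, y, z.2)‖ₑ ^ q := by
    intro y
    refine h k ι s ξ (fun i z => f i (z.1, y, z.2)) hf.cen hf.cnt fun i hi => ?_
    obtain ⟨S, iS, σ, g, φ, h1, h2, h3, h4, h5⟩ := (hf.fr i hi).slice y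
    refine ⟨S, iS, σ, g, φ, h1, h2, h3, fun t ht => ?_, h5⟩
    obtain ⟨v, hv⟩ := h4 t ht
    generalize hz : g t = ζ at hv ⊢
    obtain ⟨η, u⟩ := ζ
    simp only [cr, Set.mem_ofPred_eq] at hv ⊢
    obtain ⟨v1, v2, v3, v4⟩ := hv
    have hv0 : 0 < v := by linarith
    have h2k : (0 : ℝ) < 2 ^ k := by positivity
    have h4k : (0 : ℝ) < 4 ^ k := by positivity
    have hka4 : (1 : ℝ) / 4 ^ a ≤ 1 / 4 ^ k :=
      one_div_le_one_div_of_le h4k (pow_le_pow_right₀ (by norm_num) hka)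
    have h42 : (1 : ℝ) / 4 ^ k ≤ 1 / 2 ^ k :=
      one_div_le_one_div_of_le h2k (pow_le_pow_left₀ (by norm_num) (by norm_num) k)
    have h21 : (1 : ℝ) / 2 ^ k ≤ 1 := by
      rw [div_le_one h2k]; exact one_le_pow₀ (by norm_num)
    have hAk : A / 2 ^ k ≤ |A| * (1 / 2 ^ k) := by
      rw [div_eq_mul_one_div]
      exact mul_le_mul_of_nonneg_right (le_abs_self A) (by positivity)
    have hAk4 : A / 4 ^ k ≤ |A| * (1 / 4 ^ k) := by
      rw [div_eq_mul_one_div]
      exact mul_le_mul_of_nonneg_right (le_abs_self A) (by positivity)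
    have hw : ‖v⁻¹ • η‖ ≤ B := by
      have e1 : ‖v⁻¹ • η‖ ≤ ‖v⁻¹ • η - ξ i‖ + ‖ξ i‖ := by
        simpa using norm_add_le (v⁻¹ • η - ξ i) (ξ i)
      have e2 := hf.cen i hi
      have e3 : |A| * (1 / 2 ^ k) ≤ |A| := by
        simpa using mul_le_mul_of_nonneg_left h21 (abs_nonneg A)
      have e4 := le_abs_self R0
      rw [hB]; linarith
    have hη : ‖η‖ ≤ 2 * B := by
      have e1 : η = v • (v⁻¹ • η) := by rw [smul_smul, mul_inv_cancel₀ hv0.ne', one_smul]
      rw [e1, norm_smul, Real.norm_eq_abs, abs_of_pos hv0]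
      have : v ≤ 2 := by linarith
      exact mul_le_mul this hw (norm_nonneg _) (by norm_num)
    have hv1 : 1 - v⁻¹ ≤ 1 / 4 ^ k := by
      have e1 : 1 - v⁻¹ ≤ v - 1 := by
        have : v + v⁻¹ ≥ 2 := by
          rw [ge_iff_le, ← sub_nonneg, show v + v⁻¹ - 2 = (v - 1) ^ 2 * v⁻¹ by field_simp; ring]
          positivity
        linarith
      linarith
    have hv2 : 0 ≤ 1 - v⁻¹ := by
      have := inv_le_one_of_one_le₀ v1
      linarith
    constructor
    · have e1 : η - ξ i = (1 - v⁻¹) • η + (v⁻¹ • η - ξ i) := by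
        rw [sub_smul, one_smul]; abel
      rw [e1]
      refine (norm_add_le _ _).trans ?_
      rw [norm_smul, Real.norm_eq_abs, abs_of_nonneg hv2]
      have e2 : (1 - v⁻¹) * ‖η‖ ≤ (1 / 2 ^ k) * (2 * B) :=
        mul_le_mul (hv1.trans h42) hη (norm_nonneg _) (by positivity)
      rw [div_eq_mul_one_div (|A| + 2 * B + 4 * B ^ 2)]
      have e3 : 0 ≤ 4 * B ^ 2 * (1 / 2 ^ k) := by positivity
      nlinarith
    · have e1 : u - ‖η‖ ^ 2 = (u - ‖η‖ ^ 2 / v) - (1 - v⁻¹) * ‖η‖ ^ 2 := by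
        field_simp
        ring
      rw [e1]
      refine (abs_sub _ _).trans ?_
      have e2 : |(1 - v⁻¹) * ‖η‖ ^ 2| ≤ (1 / 4 ^ k) * (2 * B) ^ 2 := by
        rw [abs_of_nonneg (by positivity)]
        exact mul_le_mul hv1 (pow_le_pow_left₀ (norm_nonneg _) hη 2) (by positivity) (by positivity)
      rw [div_eq_mul_one_div (|A| + 2 * B + 4 * B ^ 2)]
      have e3 : 0 ≤ 2 * B * (1 / 4 ^ k) := by positivity
      nlinarith
  refine (lintegral_mono key).trans ?_
  rw [lintegral_const_mul _ (Finset.measurable_sum s fun i hi => meas_slices _ (hmeas i hi)),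
    lintegral_finsetSum s fun i hi => meas_slices _ (hmeas i hi)]
  refine le_of_eq ?_
  congr 1
  exact Finset.sum_congr rfl fun i hi => (lint_slices _ (hmeas i hi)).symm

end Pool.LibCN33
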