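import Pool.Agent.LibCN33.A3

set_option autoImplicit false

noncomputable section

open MeasureTheory Set
open scoped ENNReal

namespace Pool.LibCN33

open Pool.LibDC71 (E V ch Fr)

/-- the Lorentz map on the frequency side -/
def lf {m : ℕ} (lam : ℝ) (n : E m) (z : W m) : W m :=
  (lam • (z.1 - z.2.1 • n), z.2.1, lam ^ 2 * (z.2.2 - 2 * inner ℝ n z.1 + z.2.1 * ‖n‖ ^ 2))

theorem lf_cont {m : ℕ} (lam : ℝ) (n : E m) : Continuous (lf lam n) := by
  unfold lf
  fun_prop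

/-- the Lorentz map on the space side -/
def lx {m : ℕ} (lam : ℝ) (n : E m) (x : W m) : W m :=
  (lam • x.1 - (2 * lam ^ 2 * x.2.2) • n, x.2.1 - lam * inner ℝ x.1 n + lam ^ 2 * x.2.2 * ‖n‖ ^ 2,
    lam ^ 2 * x.2.2)

/-- its inverse -/
def li {m : ℕ} (lam : ℝ) (n : E m) (x : W m) : W m :=
  (lam⁻¹ • (x.1 + (2 * x.2.2) • n), x.2.1 + inner ℝ x.1 n + x.2.2 * ‖n‖ ^ 2,
    (lam ^ 2)⁻¹ * x.2.2)

theorem pr_lf {m : ℕ} (lam : ℝ) (n : E m) (x z : W m) : pr x (lf lam n z) = pr (lx lam n x) z := by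
  unfold pr lf lx
  simp only [inner_smul_right, inner_sub_right, inner_sub_left, real_inner_smul_left]
  ring

theorem li_lx {m : ℕ} (lam : ℝ) (h : lam ≠ 0) (n : E m) (x : W m) : li lam n (lx lam n x) = x := by
  unfold li lx
  refine Prod.ext ?_ (Prod.ext ?_ ?_)
  · simp only
    rw [← mul_assoc, sub_add_cancel, smul_smul, inv_mul_cancel₀ h, one_smul]
  · simp only
    rw [inner_sub_left, real_inner_smul_left, real_inner_smul_left, real_inner_self_eq_norm_sq]
    ring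
  · simp only
    field_simp

theorem lx_li {m : ℕ} (lam : ℝ) (h : lam ≠ 0) (n : E m) (x : W m) : lx lam n (li lam n x) = x := by
  unfold li lx
  refine Prod.ext ?_ (Prod.ext ?_ ?_)
  · simp only
    rw [smul_smul, mul_inv_cancel₀ h, one_smul,
      show 2 * lam ^ 2 * ((lam ^ 2)⁻¹ * x.2.2) = 2 * x.2.2 by field_simp, add_sub_cancel_right]
  · simp only
    rw [real_inner_smul_left, inner_add_left, real_inner_smul_left, real_inner_self_eq_norm_sq]
    field_simp
    ring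
  · simp only
    field_simp

/-- the Lorentz map as a continuous linear equivalence -/
def lor {m : ℕ} (lam : ℝ) (h : lam ≠ 0) (n : E m) : W m ≃L[ℝ] W m :=
  LinearEquiv.toContinuousLinearEquiv
    { toFun := lx lam n
      invFun := li lam n
      map_add' := by
        intro x y
        unfold lx
        refine Prod.ext ?_ (Prod.ext ?_ ?_)
        · simp only [Prod.fst_add, Prod.snd_add]
          rw [mul_add, add_smul, smul_add]
          abel
        · simp only [Prod.fst_add, Prod.snd_add]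
          rw [inner_add_left]
          ring
        · simp only [Prod.snd_add]
          ring
      map_smul' := by
        intro c x
        unfold lx
        refine Prod.ext ?_ (Prod.ext ?_ ?_)
        · simp only [Prod.smul_fst, Prod.smul_snd, RingHom.id_apply, smul_eq_mul]
          rw [smul_sub, smul_smul, smul_smul, smul_smul, mul_comm lam c]
          congr 2
          ring
        · simp only [Prod.smul_fst, Prod.smul_snd, RingHom.id_apply, smul_eq_mul]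
          rw [real_inner_smul_left]
          ring
        · simp only [Prod.smul_fst, Prod.smul_snd, RingHom.id_apply, smul_eq_mul]
          ring
      left_inv := li_lx lam h n
      right_inv := lx_li lam h n }

theorem lor_apply {m : ℕ} (lam : ℝ) (h : lam ≠ 0) (n : E m) (x : W m) :
    lor lam h n x = lx lam n x := rfl

theorem inner_sq {m : ℕ} (η n : E m) (v : ℝ) :
    ‖η - v • n‖ ^ 2 = ‖η‖ ^ 2 - 2 * v * inner ℝ n η + v ^ 2 * ‖n‖ ^ 2 := by
  rw [norm_sub_sq_real, real_inner_smul_right, norm_smul, mul_pow, Real.norm_eq_abs, sq_abs,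
    real_inner_comm]
  ring

/-- the rescaled region -/
theorem cr_lf {m : ℕ} (A v0 v1 : ℝ) (hv0 : 0 < v0) (k a : ℕ) (hak : a ≤ k) (c n : E m) :
    lf (2 ^ a) n '' cr A v0 v1 k c ⊆ cr A v0 v1 (k - a) ((2 : ℝ) ^ a • (c - n)) := by
  rintro _ ⟨⟨η, v, u⟩, hz, rfl⟩
  simp only [cr, Set.mem_ofPred_eq, lf] at hz ⊢
  obtain ⟨h1, h2, h3, h4⟩ := hz
  have hv : 0 < v := lt_of_lt_of_le hv0 h1
  have e2 : (2 : ℝ) ^ k = 2 ^ a * 2 ^ (k - a) := by rw [← pow_add]; congr 1; omega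
  have e4 : (4 : ℝ) ^ k = (2 ^ a) ^ 2 * 4 ^ (k - a) := by
    rw [← pow_mul, mul_comm a 2, pow_mul, show (2 : ℝ) ^ 2 = 4 by norm_num, ← pow_add]
    congr 1; omega
  refine ⟨h1, h2, ?_, ?_⟩
  · have e : v⁻¹ • ((2 : ℝ) ^ a • (η - v • n)) - (2 : ℝ) ^ a • (c - n)
        = (2 : ℝ) ^ a • (v⁻¹ • η - c) := by
      rw [smul_comm, smul_sub v⁻¹, smul_smul v⁻¹ v, inv_mul_cancel₀ hv.ne', one_smul, ← smul_sub]
      congr 1
      abel
    rw [e, norm_smul, Real.norm_eq_abs, abs_of_pos (by positivity)]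
    rw [e2, ← div_div] at h3
    rw [le_div_iff₀ (by positivity)] at h3 ⊢
    calc 2 ^ a * ‖v⁻¹ • η - c‖ * 2 ^ (k - a) = 2 ^ a * (‖v⁻¹ • η - c‖ * 2 ^ (k - a)) := by ring
      _ ≤ 2 ^ a * (A / 2 ^ a) := mul_le_mul_of_nonneg_left h3 (by positivity)
      _ = A := by field_simp
  · rw [norm_smul, mul_pow, Real.norm_eq_abs, sq_abs, inner_sq]
    have e : (2 ^ a) ^ 2 * (u - 2 * inner ℝ n η + v * ‖n‖ ^ 2)
        - (2 ^ a) ^ 2 * (‖η‖ ^ 2 - 2 * v * inner ℝ n η + v ^ 2 * ‖n‖ ^ 2) / v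
        = (2 ^ a) ^ 2 * (u - ‖η‖ ^ 2 / v) := by
      field_simp
      ring
    rw [e, abs_mul, abs_of_pos (by positivity)]
    rw [e4, ← div_div] at h4
    rw [le_div_iff₀ (by positivity)] at h4 ⊢
    calc (2 ^ a) ^ 2 * |u - ‖η‖ ^ 2 / v| * 4 ^ (k - a)
        = (2 ^ a) ^ 2 * (|u - ‖η‖ ^ 2 / v| * 4 ^ (k - a)) := by ring
      _ ≤ (2 ^ a) ^ 2 * (A / (2 ^ a) ^ 2) := mul_le_mul_of_nonneg_left h4 (by positivity)
      _ = A := by field_simp

/-- rescaling of a family -/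
theorem Fam.rescale {m : ℕ} {A R0 R1 v0 v1 : ℝ} {L k a : ℕ} (hv0 : 0 < v0) (hak : a ≤ k)
    {ι : Type} {s : Finset ι} {ξ : ι → E m} {f : ι → W m → ℂ} (n : E m)
    (hf : Fam A R0 v0 v1 L k s ξ f) (hn : ∀ i ∈ s, ‖ξ i - n‖ ≤ R1 / 2 ^ a) :
    Fam A R1 v0 v1 L (k - a) s (fun i => (2 : ℝ) ^ a • (ξ i - n))
      (fun i x => f i (lx (2 ^ a) n x)) := by
  refine ⟨fun i hi => ?_, fun i hi => ?_, fun i hi => ?_⟩
  · rw [norm_smul, Real.norm_eq_abs, abs_of_pos (by positivity)]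
    have := hn i hi
    rw [le_div_iff₀ (by positivity)] at this
    linarith
  · refine le_trans (le_of_eq ?_) (hf.cnt i hi)
    congr 1
    ext j
    simp only [Set.mem_ofPred_eq]
    have e : (2 : ℝ) ^ a • (ξ j - n) - (2 : ℝ) ^ a • (ξ i - n) = (2 : ℝ) ^ a • (ξ j - ξ i) := by
      rw [← smul_sub]; congr 1; abel
    rw [e, norm_smul, Real.norm_eq_abs, abs_of_pos (by positivity)]
    have e2 : (1 : ℝ) / 2 ^ (k - a) = 2 ^ a * (1 / 2 ^ k) := by
      have : (2 : ℝ) ^ k = 2 ^ a * 2 ^ (k - a) := by rw [← pow_add]; congr 1; omega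
      rw [this]; field_simp
    rw [e2, mul_le_mul_iff_right₀ (by positivity)]
  · exact ((hf.fr i hi).comp (lf (2 ^ a) n) (lx (2 ^ a) n) (lf_cont _ _).measurable
      (pr_lf _ _)).mono (cr_lf A v0 v1 hv0 k a hak (ξ i) n)

end Pool.LibCN33
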