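import Pool.Agent.LibCN33.A4

set_option autoImplicit false

noncomputable section

open MeasureTheory Set
open scoped ENNReal

namespace Pool.LibCN33

open Pool.LibDC71 (E V ch Fr)

/-- the grid label of level a -/
def lab {m : ℕ} (a : ℕ) (x : E m) : Fin m → ℤ := fun i => ⌊(2 : ℝ) ^ a * x i⌋

/-- the grid point of a label -/
def gp {m : ℕ} (a : ℕ) (κ : Fin m → ℤ) : E m := WithLp.toLp 2 (fun i => (κ i : ℝ) / 2 ^ a)

theorem norm_le_of_coord {m : ℕ} (x : E m) (r : ℝ) (hr : 0 ≤ r) (h : ∀ i, |x i| ≤ r) :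
    ‖x‖ ≤ m * r := by
  rw [EuclideanSpace.norm_eq]
  have h1 : ∑ i, ‖x i‖ ^ 2 ≤ (m * r) ^ 2 := by
    have h2 : ∑ i, ‖x i‖ ^ 2 ≤ ∑ _i : Fin m, r ^ 2 :=
      Finset.sum_le_sum fun i _ => pow_le_pow_left₀ (norm_nonneg _) (h i) 2
    rw [Finset.sum_const, Finset.card_univ, Fintype.card_fin, nsmul_eq_mul] at h2
    refine h2.trans ?_
    rw [mul_pow]
    refine mul_le_mul_of_nonneg_right ?_ (by positivity)
    rcases Nat.eq_zero_or_pos m with h0 | h0
    · simp [h0]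
    · have : (1 : ℝ) ≤ m := by exact_mod_cast h0
      nlinarith
  calc √(∑ i, ‖x i‖ ^ 2) ≤ √((m * r) ^ 2) := Real.sqrt_le_sqrt h1
    _ = m * r := Real.sqrt_sq (by positivity)

theorem lab_close {m : ℕ} (a : ℕ) (x : E m) : ‖x - gp a (lab a x)‖ ≤ (m : ℝ) / 2 ^ a := by
  have h : ∀ i, |(x - gp a (lab a x)) i| ≤ 1 / 2 ^ a := by
    intro i
    have e : (x - gp a (lab a x)) i = x i - (⌊(2 : ℝ) ^ a * x i⌋ : ℝ) / 2 ^ a := rfl
    have h2 : (0 : ℝ) < 2 ^ a := by positivity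
    have h3 := Int.floor_le ((2 : ℝ) ^ a * x i)
    have h4 := Int.lt_floor_add_one ((2 : ℝ) ^ a * x i)
    rw [e, show x i - (⌊(2 : ℝ) ^ a * x i⌋ : ℝ) / 2 ^ a
      = ((2 : ℝ) ^ a * x i - (⌊(2 : ℝ) ^ a * x i⌋ : ℝ)) / 2 ^ a by field_simp, abs_div,
      abs_of_pos h2]
    refine div_le_div_of_nonneg_right ?_ h2.le
    rw [abs_le]
    constructor <;> linarith
  have := norm_le_of_coord _ _ (by positivity) h
  rwa [mul_one_div] at this

/-- few grid points near a grid point -/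
theorem gp_cnt {m : ℕ} (a : ℕ) (J : Finset (Fin m → ℤ)) (κ : Fin m → ℤ) :
    {κ' | κ' ∈ J ∧ ‖gp a κ' - gp a κ‖ ≤ 1 / 2 ^ a}.ncard ≤ 3 ^ m := by
  have h : {κ' | κ' ∈ J ∧ ‖gp a κ' - gp a κ‖ ≤ 1 / 2 ^ a} ⊆
      ((Fintype.piFinset fun i => Finset.Icc (κ i - 1) (κ i + 1) : Finset (Fin m → ℤ)) :
        Set (Fin m → ℤ)) := by
    rintro κ' ⟨_, h⟩
    simp only [Fintype.coe_piFinset, Set.mem_pi, Set.mem_univ, true_implies, Finset.coe_Icc,
      Set.mem_Icc]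
    intro i
    have h2 : (0 : ℝ) < 2 ^ a := by positivity
    have h3 : |(gp a κ' - gp a κ) i| ≤ 1 / 2 ^ a := by
      have := EuclideanSpace.norm_eq (gp a κ' - gp a κ)
      refine le_trans ?_ h
      have h4 := PiLp.norm_apply_le (gp a κ' - gp a κ) i
      exact h4
    have e : (gp a κ' - gp a κ) i = ((κ' i - κ i : ℤ) : ℝ) / 2 ^ a := by
      have : (gp a κ' - gp a κ) i = (κ' i : ℝ) / 2 ^ a - (κ i : ℝ) / 2 ^ a := rfl
      rw [this]; push_cast; ring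
    rw [e, abs_div, abs_of_pos h2, div_le_div_iff_of_pos_right h2] at h3
    have h5 : |κ' i - κ i| ≤ 1 := by
      rw [← Int.cast_abs] at h3
      exact_mod_cast h3
    rw [abs_le] at h5
    constructor <;> omega
  refine (Set.ncard_le_ncard h (Finset.finite_toSet _)).trans ?_
  rw [Set.ncard_coe_finset, Fintype.card_piFinset]
  have : ∀ i, (Finset.Icc (κ i - 1) (κ i + 1)).card = 3 := by
    intro i
    rw [Int.card_Icc]
    omega
  simp [this]

/-- the family of the groups -/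
theorem Fam.group {m : ℕ} {A R0 v0 v1 : ℝ} {L k a : ℕ} (hak : a ≤ k) {ι : Type} {s : Finset ι}
    {ξ : ι → E m} {f : ι → W m → ℂ} (hf : Fam A R0 v0 v1 L k s ξ f) :
    Fam (|A| + m) (R0 + m) v0 v1 (3 ^ m) a (s.image fun i => lab a (ξ i)) (gp a)
      (fun κ x => ∑ i ∈ s.filter (fun i => lab a (ξ i) = κ), f i x) := by
  have h2a : (0 : ℝ) < 2 ^ a := by positivity
  have h21 : (1 : ℝ) ≤ 2 ^ a := one_le_pow₀ (by norm_num)
  have h2k : (2 : ℝ) ^ a ≤ 2 ^ k := pow_le_pow_right₀ (by norm_num) hak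
  have h4k : (4 : ℝ) ^ a ≤ 4 ^ k := pow_le_pow_right₀ (by norm_num) hak
  refine ⟨fun κ hκ => ?_, fun κ _ => gp_cnt a _ κ, fun κ _ => ?_⟩
  · obtain ⟨i, hi, rfl⟩ := Finset.mem_image.1 hκ
    have h1 := lab_close a (ξ i)
    have h2 := hf.cen i hi
    have h3 : (m : ℝ) / 2 ^ a ≤ m := div_le_self (by positivity) h21
    have h4 : ‖gp a (lab a (ξ i))‖ ≤ ‖ξ i‖ + ‖ξ i - gp a (lab a (ξ i))‖ := by
      have := norm_sub_le (ξ i) (ξ i - gp a (lab a (ξ i)))
      rwa [sub_sub_cancel] at this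
    linarith
  · refine Fc.sum _ _ fun i hi => ?_
    obtain ⟨his, rfl⟩ := Finset.mem_filter.1 hi
    refine (hf.fr i his).mono ?_
    rintro ⟨η, v, u⟩ hz
    simp only [cr, Set.mem_ofPred_eq] at hz ⊢
    obtain ⟨h1, h2, h3, h4⟩ := hz
    refine ⟨h1, h2, ?_, ?_⟩
    · have e1 : v⁻¹ • η - gp a (lab a (ξ i))
          = (v⁻¹ • η - ξ i) + (ξ i - gp a (lab a (ξ i))) := by abel
      rw [e1]
      refine (norm_add_le _ _).trans ?_
      have e2 := lab_close a (ξ i)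
      have e3 : A / 2 ^ k ≤ |A| / 2 ^ a := by
        refine (div_le_div_of_nonneg_right (le_abs_self A) (by positivity)).trans ?_
        exact div_le_div_of_nonneg_left (abs_nonneg A) h2a h2k
      rw [add_div]
      linarith
    · have e3 : A / 4 ^ k ≤ |A| / 4 ^ a := by
        refine (div_le_div_of_nonneg_right (le_abs_self A) (by positivity)).trans ?_
        exact div_le_div_of_nonneg_left (abs_nonneg A) (by positivity) h4k
      rw [add_div]
      have : (0 : ℝ) ≤ m / 4 ^ a := by positivity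
      linarith

/-- the sum over the groups -/
theorem group_sum {m : ℕ} {ι : Type} (a : ℕ) (s : Finset ι) (ξ : ι → E m) (F : ι → ℂ) :
    ∑ κ ∈ s.image (fun i => lab a (ξ i)), ∑ i ∈ s.filter (fun i => lab a (ξ i) = κ), F i
      = ∑ i ∈ s, F i :=
  Finset.sum_fiberwise_of_maps_to (fun _ hi => Finset.mem_image_of_mem _ hi) F

theorem group_sum' {m : ℕ} {ι : Type} (a : ℕ) (s : Finset ι) (ξ : ι → E m) (F : ι → ℝ≥0∞) :
    ∑ κ ∈ s.image (fun i => lab a (ξ i)), ∑ i ∈ s.filter (fun i => lab a (ξ i) = κ), F i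
      = ∑ i ∈ s, F i :=
  Finset.sum_fiberwise_of_maps_to (fun _ hi => Finset.mem_image_of_mem _ hi) F

/-- one step of the recursion -/
theorem step {m : ℕ} {q : ℝ} {A R0 v0 v1 : ℝ} {L k a : ℕ} (hv0 : 0 < v0) (hak : a ≤ k)
    (D1 D2 : ℝ≥0∞)
    (h1 : ∀ (ι : Type) (s : Finset ι) (ξ : ι → E m) (f : ι → W m → ℂ),
      Fam (|A| + m) (R0 + m) v0 v1 (3 ^ m) a s ξ f → Ineq q D1 s f)
    (h2 : ∀ (ι : Type) (s : Finset ι) (ξ : ι → E m) (f : ι → W m → ℂ),
      Fam A m v0 v1 L (k - a) s ξ f → Ineq q D2 s f)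
    {ι : Type} (s : Finset ι) (ξ : ι → E m) (f : ι → W m → ℂ) (hf : Fam A R0 v0 v1 L k s ξ f) :
    Ineq q (D1 * D2) s f := by
  have g1 := h1 _ _ _ _ (hf.group hak)
  unfold Ineq at g1 ⊢
  have e1 : ∀ x, ∑ κ ∈ s.image (fun i => lab a (ξ i)),
      ∑ i ∈ s.filter (fun i => lab a (ξ i) = κ), f i x = ∑ i ∈ s, f i x :=
    fun x => group_sum a s ξ fun i => f i x
  simp only [e1] at g1
  refine g1.trans ?_
  rw [mul_assoc]
  refine mul_le_mul_right ?_ _
  rw [← group_sum' a s ξ, Finset.mul_sum]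
  refine Finset.sum_le_sum fun κ _ => ?_
  have hne : ((2 : ℝ) ^ a) ≠ 0 := by positivity
  have hsub : Fam A R0 v0 v1 L k (s.filter fun i => lab a (ξ i) = κ) ξ f := by
    refine ⟨fun i hi => hf.cen i (Finset.mem_filter.1 hi).1, fun i hi => ?_,
      fun i hi => hf.fr i (Finset.mem_filter.1 hi).1⟩
    refine (Set.ncard_le_ncard ?_ ?_).trans (hf.cnt i (Finset.mem_filter.1 hi).1)
    · rintro j ⟨hj, hj2⟩
      exact ⟨(Finset.mem_filter.1 hj).1, hj2⟩
    · exact (Finset.finite_toSet s).subset fun j hj => hj.1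
  have h3 := hsub.rescale (R1 := m) hv0 hak (gp a κ) (fun i hi => by
    obtain ⟨_, rfl⟩ := Finset.mem_filter.1 hi
    exact lab_close a (ξ i))
  exact ineq_lin (lor (2 ^ a) hne (gp a κ)) _ _ (h2 _ _ _ _ h3)

end Pool.LibCN33
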