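import Pool.Agent.LibCN33.A5

set_option autoImplicit false

noncomputable section

open MeasureTheory Set
open scoped ENNReal

namespace Pool.LibCN33

open Pool.LibDC71 (E V ch Fr)

theorem fac_add (m : ℕ) (q ε : ℝ) (a b : ℕ) : fac m q ε (a + b) = fac m q ε a * fac m q ε b := by
  unfold fac
  rw [← ENNReal.rpow_add _ _ (by norm_num) (by norm_num)]
  congr 1
  push_cast
  ring

theorem fac_half (m : ℕ) (q ε : ℝ) (a : ℕ) :
    fac m q ε a = (2 : ℝ≥0∞) ^ ((ε / 2) * a) * fac m q (ε / 2) a := by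
  unfold fac
  rw [← ENNReal.rpow_add _ _ (by norm_num) (by norm_num)]
  congr 1
  ring

theorem fac_mono (m : ℕ) (q ε ε' : ℝ) (h : ε ≤ ε') (a : ℕ) : fac m q ε a ≤ fac m q ε' a := by
  unfold fac
  refine ENNReal.rpow_le_rpow_of_exponent_le (by norm_num) ?_
  exact mul_le_mul_of_nonneg_right (by linarith) (by positivity)

theorem Ineq.mono {m : ℕ} {q : ℝ} {D D' : ℝ≥0∞} {ι : Type} {s : Finset ι} {f : ι → W m → ℂ}
    (h : Ineq q D s f) (hD : D ≤ D') : Ineq q D' s f :=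
  le_trans h (mul_le_mul_left hD _)

theorem exists_a (C ε : ℝ) (hε : 0 < ε) : ∃ a : ℕ, 1 ≤ a ∧
    ENNReal.ofReal C ≤ (2 : ℝ≥0∞) ^ ((ε / 2) * (a : ℝ)) := by
  obtain ⟨n, hn⟩ := exists_nat_gt (C / (ε / 2 * Real.log 2))
  have hl : 0 < Real.log 2 := Real.log_pos (by norm_num)
  refine ⟨max n 1, le_max_right _ _, ?_⟩
  rw [show (2 : ℝ≥0∞) = ENNReal.ofReal 2 by simp,
    ENNReal.ofReal_rpow_of_pos (by norm_num)]
  refine ENNReal.ofReal_le_ofReal ?_
  have h1 : C < n * (ε / 2 * Real.log 2) := by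
    rwa [div_lt_iff₀ (by positivity)] at hn
  have h2 : (n : ℝ) ≤ ((max n 1 : ℕ) : ℝ) := by exact_mod_cast le_max_left n 1
  have h3 : C ≤ Real.log 2 * (ε / 2 * ((max n 1 : ℕ) : ℝ)) := by
    have := mul_le_mul_of_nonneg_right h2 (by positivity : 0 ≤ ε / 2 * Real.log 2)
    linarith
  rw [Real.rpow_def_of_pos (by norm_num)]
  have h4 := Real.add_one_le_exp (Real.log 2 * (ε / 2 * ((max n 1 : ℕ) : ℝ)))
  linarith

/-- the window statement, centres in the ball of radius m -/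
theorem win0 {m : ℕ} {q : ℝ} (hPD : PD m q) (A ε : ℝ) (L : ℕ) (hε : 0 < ε) :
    ∃ a : ℕ, 1 ≤ a ∧ ∃ C : ℝ≥0∞, C ≠ ⊤ ∧ ∀ (k : ℕ) (ι : Type) (s : Finset ι) (ξ : ι → E m)
      (f : ι → W m → ℂ), Fam A m 1 (1 + 1 / 4 ^ a) L k s ξ f → Ineq q (C * fac m q ε k) s f := by
  obtain ⟨C1, hC1, h1⟩ := flat hPD (|A| + m) (m + m) (ε / 2) (3 ^ m) (half_pos hε)
  obtain ⟨C2, hC2, h2⟩ := flat hPD A m (ε / 2) L (half_pos hε)
  obtain ⟨a, ha1, ha⟩ := exists_a C1.toReal ε hε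
  rw [ENNReal.ofReal_toReal hC1] at ha
  refine ⟨a, ha1, C2, hC2, fun k => ?_⟩
  induction k using Nat.strong_induction_on with
  | _ k ih =>
    intro ι s ξ f hf
    rcases le_or_gt k a with hka | hka
    · refine (h2 a k hka ι s ξ f hf).mono ?_
      exact mul_le_mul_right (fac_mono m q _ _ (by linarith) k) _
    · have h3 := step (D1 := C1 * fac m q (ε / 2) a) (D2 := C2 * fac m q ε (k - a)) one_pos hka.le
        (fun ι' s' ξ' f' hf' => h1 a a le_rfl ι' s' ξ' f' hf')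
        (fun ι' s' ξ' f' hf' => ih (k - a) (by omega) ι' s' ξ' f' hf') s ξ f hf
      refine h3.mono ?_
      have e : fac m q ε k = fac m q ε a * fac m q ε (k - a) := by
        rw [← fac_add]; congr 1; omega
      rw [e, fac_half m q ε a]
      calc C1 * fac m q (ε / 2) a * (C2 * fac m q ε (k - a))
          ≤ (2 : ℝ≥0∞) ^ ((ε / 2) * (a : ℝ)) * fac m q (ε / 2) a * (C2 * fac m q ε (k - a)) := by
            gcongr
        _ = _ := by ring

/-- the window statement, centres in a ball of radius R0 -/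
theorem win1 {m : ℕ} {q : ℝ} (hPD : PD m q) (A ε : ℝ) (L : ℕ) (hε : 0 < ε) :
    ∃ a : ℕ, 1 ≤ a ∧ ∀ R0 : ℝ, ∃ C : ℝ≥0∞, C ≠ ⊤ ∧ ∀ (k : ℕ) (ι : Type) (s : Finset ι)
      (ξ : ι → E m) (f : ι → W m → ℂ), Fam A R0 1 (1 + 1 / 4 ^ a) L k s ξ f →
      Ineq q (C * fac m q ε k) s f := by
  obtain ⟨a, ha1, C0, hC0, h0⟩ := win0 hPD A ε L hε
  refine ⟨a, ha1, fun R0 => ?_⟩
  obtain ⟨C3, hC3, h3⟩ := flat hPD (|A| + m) (R0 + m) ε (3 ^ m) hε
  obtain ⟨C4, hC4, h4⟩ := flat hPD A R0 ε L hε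
  refine ⟨C3 * C0 + C4, ENNReal.add_ne_top.2 ⟨ENNReal.mul_ne_top hC3 hC0, hC4⟩,
    fun k ι s ξ f hf => ?_⟩
  rcases le_or_gt k a with hka | hka
  · refine (h4 a k hka ι s ξ f hf).mono ?_
    exact mul_le_mul_left le_add_self _
  · have h5 := step (D1 := C3 * fac m q ε a) (D2 := C0 * fac m q ε (k - a)) one_pos hka.le
      (fun ι' s' ξ' f' hf' => h3 a a le_rfl ι' s' ξ' f' hf')
      (fun ι' s' ξ' f' hf' => h0 (k - a) ι' s' ξ' f' hf') s ξ f hf
    refine h5.mono ?_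
    have e : fac m q ε k = fac m q ε a * fac m q ε (k - a) := by
      rw [← fac_add]; congr 1; omega
    rw [e]
    calc C3 * fac m q ε a * (C0 * fac m q ε (k - a))
        = C3 * C0 * (fac m q ε a * fac m q ε (k - a)) := by ring
      _ ≤ _ := mul_le_mul_left le_self_add _

end Pool.LibCN33
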