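import Pool.Agent.LibCN33.A6

set_option autoImplicit false

noncomputable section

open MeasureTheory Set
open scoped ENNReal FourierTransform

namespace Pool.LibCN33

open Pool.LibDC71 (E V ch Fr)

/-- a smooth compactly supported function is the Fourier transform of an integrable function -/
theorem ker (χ : ℝ → ℝ) (h1 : ContDiff ℝ (⊤ : ℕ∞) χ) (h2 : HasCompactSupport χ) :
    ∃ h : ℝ → ℂ, Continuous h ∧ Integrable h ∧ ∀ v, (χ v : ℂ) = ∫ r, h r * ph (-(r * v)) := by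
  have h1' : ContDiff ℝ (⊤ : ℕ∞) (fun v => (χ v : ℂ)) := Complex.ofRealCLM.contDiff.comp h1
  have h2' : HasCompactSupport (fun v => (χ v : ℂ)) := h2.comp_left (g := fun t : ℝ => (t : ℂ)) (by simp)
  set ψ : SchwartzMap ℝ ℂ := h2'.toSchwartzMap h1' with hψ
  refine ⟨fun r => (𝓕⁻ ψ : SchwartzMap ℝ ℂ) r, (𝓕⁻ ψ : SchwartzMap ℝ ℂ).continuous,
    (𝓕⁻ ψ : SchwartzMap ℝ ℂ).integrable, fun v => ?_⟩
  have e1 : (𝓕 (𝓕⁻ ψ : SchwartzMap ℝ ℂ) : SchwartzMap ℝ ℂ) = ψ :=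
    FourierTransform.fourier_fourierInv_eq ψ
  have e2 : (χ v : ℂ) = (𝓕 (𝓕⁻ ψ : SchwartzMap ℝ ℂ) : SchwartzMap ℝ ℂ) v := by rw [e1]; rfl
  rw [e2, SchwartzMap.fourier_coe, Real.fourier_eq']
  refine integral_congr_ae (Filter.Eventually.of_forall fun w => ?_)
  simp only [smul_eq_mul]
  rw [mul_comm]
  congr 1
  rw [ph_eq]
  congr 2
  have : inner ℝ w v = w * v := by simp [mul_comm]
  rw [this]
  congr 1
  ring

/-- convolution in the variable y -/
def Tm {m : ℕ} (h : ℝ → ℂ) (f : W m → ℂ) (x : W m) : ℂ :=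
  ∫ r, h r * f (x.1, x.2.1 - r, x.2.2)

theorem pr_shift {m : ℕ} (x z : W m) (r : ℝ) :
    pr (x.1, x.2.1 - r, x.2.2) z = pr x z + -(r * z.2.1) := by
  unfold pr
  simp only
  ring

/-- the representation of Tm h f -/
theorem Tm_rep {m : ℕ} {χ : ℝ → ℝ} {h : ℝ → ℂ} (hi : Integrable h)
    (hχ : ∀ v, (χ v : ℂ) = ∫ r, h r * ph (-(r * v))) {S : Type} [MeasurableSpace S]
    {σ : Measure S} [SFinite σ] {g : S → W m} {φ : S → ℂ} (hg : Measurable g) (hφ : Integrable φ σ)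
    {f : W m → ℂ} (hf : ∀ z, f z = ∫ s, φ s * ph (pr z (g s)) ∂σ) (x : W m) :
    Tm h f x = ∫ s, (φ s * (χ (g s).2.1 : ℂ)) * ph (pr x (g s)) ∂σ := by
  unfold Tm
  have e1 : ∀ r, h r * f (x.1, x.2.1 - r, x.2.2)
      = ∫ s, h r * (φ s * ph (pr x (g s) + -(r * (g s).2.1))) ∂σ := by
    intro r
    rw [hf, integral_const_mul]
    congr 1
    refine integral_congr_ae (Filter.Eventually.of_forall fun s => ?_)
    simp only
    rw [pr_shift]
  simp only [e1]
  rw [integral_integral_swap]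
  · refine integral_congr_ae (Filter.Eventually.of_forall fun s => ?_)
    simp only
    rw [hχ, mul_assoc, ← integral_mul_const, ← integral_const_mul]
    refine integral_congr_ae (Filter.Eventually.of_forall fun r => ?_)
    simp only
    rw [ph_add]
    ring
  · have h3 : Integrable (fun p : ℝ × S => h p.1 * φ p.2) ((volume : Measure ℝ).prod σ) :=
      hi.mul_prod hφ
    have h4 := int_mul h3 (fun p : ℝ × S => ph (pr x (g p.2) + -(p.1 * (g p.2).2.1))) (by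
      refine (ph_cont.measurable.comp ?_).aestronglyMeasurable
      have m1 : Measurable (fun p : ℝ × S => pr x (g p.2)) :=
        (pr_cont x).measurable.comp (hg.comp measurable_snd)
      have m2 : Measurable (fun p : ℝ × S => (g p.2).2.1) :=
        (hg.comp measurable_snd).snd.fst
      exact m1.add (measurable_fst.mul m2).neg) (fun a => (ph_norm _).le)
    refine h4.congr (Filter.Eventually.of_forall fun p => ?_)
    simp only [Function.uncurry]
    ring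

theorem Tm_Fc {m : ℕ} {χ : ℝ → ℝ} {h : ℝ → ℂ} (hi : Integrable h)
    (hχm : Continuous χ) (hχb : ∀ v, |χ v| ≤ 1)
    (hχ : ∀ v, (χ v : ℂ) = ∫ r, h r * ph (-(r * v))) {U : Set (W m)} {f : W m → ℂ}
    (hf : Fc U f) : Fc (U ∩ {ζ | χ ζ.2.1 ≠ 0}) (Tm h f) := by
  obtain ⟨S, iS, σ, g, φ, h1, h2, h3, h4, h5⟩ := hf
  refine ⟨S, iS, σ, g, fun s => φ s * (χ (g s).2.1 : ℂ), h1, h2, ?_, ?_, ?_⟩
  · refine int_mul h3 _ ?_ fun a => ?_
    · have : Measurable (fun s => χ (g s).2.1) := hχm.measurable.comp h2.snd.fst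
      exact (Complex.measurable_ofReal.comp this).aestronglyMeasurable
    · rw [Complex.norm_real]; exact hχb _
  · intro s hs
    refine ⟨h4 s (left_ne_zero_of_mul hs), ?_⟩
    have := right_ne_zero_of_mul hs
    exact_mod_cast this
  · intro z
    exact Tm_rep hi hχ h2 h3 h5 z

/-- the bound for the norms -/
theorem Tm_norm {m : ℕ} {q : ℝ} (hq : 1 ≤ q) {h : ℝ → ℂ} (hc : Continuous h)
    {f : W m → ℂ} (hf : Continuous f) :
    ∫⁻ x, ‖Tm h f x‖ₑ ^ q ≤ (∫⁻ r, ‖h r‖ₑ) ^ q * ∫⁻ x, ‖f x‖ₑ ^ q := by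
  have hq0 : 0 < q := by linarith
  have hhm : Measurable (fun r => ‖h r‖ₑ) := hc.measurable.enorm
  have hfm : Measurable (fun x => ‖f x‖ₑ) := hf.measurable.enorm
  have key : ∀ x : W m, ‖Tm h f x‖ₑ ^ q ≤
      (∫⁻ r, ‖h r‖ₑ) ^ (q - 1) * ∫⁻ r, ‖h r‖ₑ * ‖f (x.1, x.2.1 - r, x.2.2)‖ₑ ^ q := by
    intro x
    have hfx : Measurable (fun r : ℝ => ‖f (x.1, x.2.1 - r, x.2.2)‖ₑ) := by
      have : Continuous (fun r : ℝ => f (x.1, x.2.1 - r, x.2.2)) := hf.comp (by fun_prop)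
      exact this.measurable.enorm
    have h1 : ‖Tm h f x‖ₑ ≤ ∫⁻ r, ‖h r‖ₑ * ‖f (x.1, x.2.1 - r, x.2.2)‖ₑ := by
      refine (enorm_integral_le_lintegral_enorm _).trans (le_of_eq ?_)
      refine lintegral_congr fun r => ?_
      rw [enorm_mul]
    refine (ENNReal.rpow_le_rpow h1 hq0.le).trans ?_
    have h2 := ENNReal.lintegral_mul_norm_pow_le (μ := (volume : Measure ℝ).withDensity
      (fun r => ‖h r‖ₑ)) (f := fun r => ‖f (x.1, x.2.1 - r, x.2.2)‖ₑ ^ q) (g := fun _ => 1)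
      (hfx.pow_const q).aemeasurable aemeasurable_const (p := 1 / q) (q := 1 - 1 / q)
      (by positivity) (by rw [sub_nonneg, div_le_one hq0]; exact hq) (by ring)
    have h3 : ∀ r : ℝ, (‖f (x.1, x.2.1 - r, x.2.2)‖ₑ ^ q) ^ (1 / q) * (1 : ℝ≥0∞) ^ (1 - 1 / q)
        = ‖f (x.1, x.2.1 - r, x.2.2)‖ₑ := by
      intro r
      rw [ENNReal.one_rpow, mul_one, ← ENNReal.rpow_mul, mul_one_div_cancel hq0.ne',
        ENNReal.rpow_one]
    simp only [h3] at h2
    rw [lintegral_withDensity_eq_lintegral_mul _ hhm hfx,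
      lintegral_withDensity_eq_lintegral_mul _ hhm (hfx.pow_const q), lintegral_one,
      withDensity_apply _ MeasurableSet.univ, Measure.restrict_univ] at h2
    simp only [Pi.mul_apply] at h2
    refine (ENNReal.rpow_le_rpow h2 hq0.le).trans (le_of_eq ?_)
    rw [ENNReal.mul_rpow_of_nonneg _ _ hq0.le, ← ENNReal.rpow_mul, ← ENNReal.rpow_mul,
      one_div_mul_cancel hq0.ne', ENNReal.rpow_one, mul_comm]
    congr 2
    field_simp
  refine (lintegral_mono key).trans ?_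
  have hm2 : Measurable (fun p : W m × ℝ => ‖h p.2‖ₑ * ‖f (p.1.1, p.1.2.1 - p.2, p.1.2.2)‖ₑ ^ q) := by
    refine (hhm.comp measurable_snd).mul ?_
    exact (hfm.comp (by fun_prop)).pow_const q
  rw [lintegral_const_mul _ hm2.lintegral_prod_right']
  rw [lintegral_lintegral_swap hm2.aemeasurable]
  have e1 : ∀ r : ℝ, ∫⁻ x : W m, ‖h r‖ₑ * ‖f (x.1, x.2.1 - r, x.2.2)‖ₑ ^ q
      = ‖h r‖ₑ * ∫⁻ x : W m, ‖f x‖ₑ ^ q := by
    intro r
    rw [lintegral_const_mul _ (by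
      exact (hfm.comp (by fun_prop)).pow_const q)]
    congr 1
    have := haar m
    have e2 := lintegral_sub_right_eq_self (μ := (volume : Measure (W m)))
      (fun x : W m => ‖f x‖ₑ ^ q) ((0, r, 0) : W m)
    rw [← e2]
    refine lintegral_congr fun x => ?_
    congr 3
    refine Prod.ext ?_ (Prod.ext ?_ ?_) <;> simp
  simp only [e1]
  rw [lintegral_mul_const _ hhm, ← mul_assoc]
  refine mul_le_mul_left (le_of_eq ?_) _
  rcases eq_or_ne (∫⁻ r, ‖h r‖ₑ) ⊤ with ht | ht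
  · rw [ht, ENNReal.top_rpow_of_pos hq0]
    rcases eq_or_lt_of_le hq with h1 | h1
    · rw [← h1]; simp
    · rw [ENNReal.top_rpow_of_pos (by linarith)]; simp
  · rcases eq_or_ne (∫⁻ r, ‖h r‖ₑ) 0 with h0 | h0
    · rw [h0, mul_zero, ENNReal.zero_rpow_of_pos hq0]
    · nth_rewrite 2 [← ENNReal.rpow_one (∫⁻ r, ‖h r‖ₑ)]
      rw [← ENNReal.rpow_add _ _ h0 ht]
      congr 1
      ring

end Pool.LibCN33
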