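import Pool.Agent.LibCN33.A7

set_option autoImplicit false

noncomputable section

open MeasureTheory Set
open scoped ENNReal

namespace Pool.LibCN33

open Pool.LibDC71 (E V ch Fr)

/-- the smooth step -/
def stp (w b v : ℝ) : ℝ := Real.smoothTransition ((v - b) / w)

/-- the window function -/
def wdw (w b v : ℝ) : ℝ := stp w b v - stp w (b + w) v

theorem stp_smooth (w b : ℝ) : ContDiff ℝ (⊤ : ℕ∞) (stp w b) := by
  unfold stp
  exact Real.smoothTransition.contDiff.comp (by fun_prop)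

theorem wdw_smooth (w b : ℝ) : ContDiff ℝ (⊤ : ℕ∞) (wdw w b) :=
  (stp_smooth w b).sub (stp_smooth w (b + w))

theorem stp_zero {w b v : ℝ} (hw : 0 < w) (h : v ≤ b) : stp w b v = 0 :=
  Real.smoothTransition.zero_of_nonpos (div_nonpos_of_nonpos_of_nonneg (by linarith) hw.le)

theorem stp_one {w b v : ℝ} (hw : 0 < w) (h : b + w ≤ v) : stp w b v = 1 :=
  Real.smoothTransition.one_of_one_le (by rw [one_le_div hw]; linarith)

theorem wdw_supp {w b v : ℝ} (hw : 0 < w) (h : wdw w b v ≠ 0) : b ≤ v ∧ v ≤ b + 2 * w := by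
  constructor
  · by_contra hc
    push Not at hc
    apply h
    unfold wdw
    rw [stp_zero hw hc.le, stp_zero hw (by linarith)]
    ring
  · by_contra hc
    push Not at hc
    apply h
    unfold wdw
    rw [stp_one hw (by linarith), stp_one hw (by linarith)]
    ring

theorem wdw_comp {w : ℝ} (hw : 0 < w) (b : ℝ) : HasCompactSupport (wdw w b) := by
  refine HasCompactSupport.intro (isCompact_Icc (a := b) (b := b + 2 * w)) fun v hv => ?_
  by_contra hc
  exact hv (wdw_supp hw hc)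

theorem wdw_le (w b v : ℝ) : |wdw w b v| ≤ 1 := by
  unfold wdw stp
  have h1 := Real.smoothTransition.nonneg ((v - b) / w)
  have h2 := Real.smoothTransition.le_one ((v - b) / w)
  have h3 := Real.smoothTransition.nonneg ((v - (b + w)) / w)
  have h4 := Real.smoothTransition.le_one ((v - (b + w)) / w)
  rw [abs_le]
  constructor <;> linarith

theorem wdw_sum (w b v : ℝ) (J : ℕ) :
    ∑ j ∈ Finset.range J, wdw w (b + j * w) v = stp w b v - stp w (b + J * w) v := by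
  induction J with
  | zero => simp
  | succ J ih =>
    rw [Finset.sum_range_succ, ih]
    unfold wdw
    push_cast
    rw [show b + J * w + w = b + (J + 1) * w by ring]
    ring

theorem wdw_sum_one {w b v : ℝ} {J : ℕ} (hw : 0 < w) (h1 : b + w ≤ v) (h2 : v ≤ b + J * w) :
    ∑ j ∈ Finset.range J, wdw w (b + j * w) v = 1 := by
  rw [wdw_sum, stp_one hw h1, stp_zero hw h2, sub_zero]

/-- dilations -/
def dil (m : ℕ) (c : ℝ) (hc : c ≠ 0) : W m ≃L[ℝ] W m :=
  ContinuousLinearEquiv.smulLeft (Units.mk0 c hc)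

theorem dil_apply {m : ℕ} (c : ℝ) (hc : c ≠ 0) (x : W m) : dil m c hc x = c • x := rfl

theorem pr_dil {m : ℕ} (c : ℝ) (x z : W m) : pr x (c • z) = pr (c • x) z := by
  unfold pr
  simp only [Prod.smul_fst, Prod.smul_snd, inner_smul_right, real_inner_smul_left, smul_eq_mul]
  ring

/-- one window -/
theorem one_win {m : ℕ} {q : ℝ} {A R0 v0 v1 b : ℝ} {a L k : ℕ} {D : ℝ≥0∞} (hv0 : 0 < v0)
    (hb : v0 / 2 ≤ b)
    (h : ∀ (ι : Type) (s : Finset ι) (ξ : ι → E m) (f : ι → W m → ℂ),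
      Fam (|A| * (1 + 2 / v0)) R0 1 (1 + 1 / 4 ^ a) L k s ξ f → Ineq q D s f)
    {ι : Type} {s : Finset ι} {ξ : ι → E m} {f f' : ι → W m → ℂ} (hf : Fam A R0 v0 v1 L k s ξ f)
    (hf' : ∀ i ∈ s, Fc (cr A v0 v1 k (ξ i) ∩ {ζ | b ≤ ζ.2.1 ∧ ζ.2.1 ≤ b * (1 + 1 / 4 ^ a)}) (f' i)) :
    Ineq q D s f' := by
  have hb0 : 0 < b := by linarith
  have hbi : b⁻¹ ≠ 0 := by positivity
  refine ineq_lin (dil m b⁻¹ hbi) s f' (h ι s ξ _ ⟨hf.cen, hf.cnt, fun i hi => ?_⟩)
  refine ((hf' i hi).comp (fun z => b⁻¹ • z) (fun z => b⁻¹ • z) (by fun_prop)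
    (fun x z => pr_dil _ _ _)).mono ?_
  rintro _ ⟨⟨η, v, u⟩, ⟨hz, hz1, hz2⟩, rfl⟩
  simp only [cr, Set.mem_ofPred_eq, Prod.smul_mk, smul_eq_mul] at hz hz1 hz2 ⊢
  obtain ⟨h1, h2, h3, h4⟩ := hz
  have hv : 0 < v := by linarith
  have h2k : (0 : ℝ) < 2 ^ k := by positivity
  have h4k : (0 : ℝ) < 4 ^ k := by positivity
  have hAa : A ≤ |A| := le_abs_self A
  have hAp : |A| ≤ |A| * (1 + 2 / v0) := by
    have : 0 ≤ |A| * (2 / v0) := by positivity
    linarith
  refine ⟨?_, ?_, ?_, ?_⟩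
  · rw [← div_eq_inv_mul, one_le_div hb0]; exact hz1
  · rw [← div_eq_inv_mul, div_le_iff₀ hb0]; linarith
  · rw [smul_smul, show (b⁻¹ * v)⁻¹ * b⁻¹ = v⁻¹ by field_simp]
    refine h3.trans (div_le_div_of_nonneg_right (hAa.trans hAp) h2k.le)
  · rw [norm_smul, Real.norm_eq_abs, abs_of_pos (inv_pos.2 hb0)]
    have e : b⁻¹ * u - (b⁻¹ * ‖η‖) ^ 2 / (b⁻¹ * v) = b⁻¹ * (u - ‖η‖ ^ 2 / v) := by
      field_simp
    rw [e, abs_mul, abs_of_pos (inv_pos.2 hb0)]
    have h5 : |u - ‖η‖ ^ 2 / v| ≤ |A| / 4 ^ k := h4.trans (div_le_div_of_nonneg_right hAa h4k.le)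
    have h6 : b⁻¹ ≤ 2 / v0 := by
      rw [inv_eq_one_div, div_le_div_iff₀ hb0 hv0]; linarith
    calc b⁻¹ * |u - ‖η‖ ^ 2 / v| ≤ (2 / v0) * (|A| / 4 ^ k) := by gcongr
      _ = |A| * (2 / v0) / 4 ^ k := by ring
      _ ≤ |A| * (1 + 2 / v0) / 4 ^ k := by
        refine div_le_div_of_nonneg_right ?_ h4k.le
        have := abs_nonneg A
        linarith

/-- **decoupling for the cone** -/
theorem cone {m : ℕ} {q : ℝ} (hq : 1 ≤ q) (hPD : PD m q) : CD m q := by
  intro A R0 v0 v1 ε L hv0 hε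
  obtain ⟨a, ha1, hw⟩ := win1 hPD (|A| * (1 + 2 / v0)) ε L hε
  obtain ⟨C, hC, hw⟩ := hw R0
  set b0 : ℝ := v0 / 2 with hb0
  have hb0p : 0 < b0 := by positivity
  set w : ℝ := b0 / (2 * 4 ^ a) with hwd
  have hwp : 0 < w := by positivity
  have h4a : (1 : ℝ) ≤ 4 ^ a := one_le_pow₀ (by norm_num)
  have hwb : w ≤ b0 := by
    rw [hwd, div_le_iff₀ (by positivity)]
    nlinarith
  obtain ⟨J, hJ⟩ := exists_nat_ge (v1 / w)
  have hJ' : v1 ≤ b0 + J * w := by
    rw [div_le_iff₀ hwp] at hJ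
    linarith
  have hker := fun j : ℕ => ker (wdw w (b0 + j * w)) (wdw_smooth w _) (wdw_comp hwp _)
  choose h hc hi hχ using hker
  set B : ℝ≥0∞ := ∑ j ∈ Finset.range J, (∫⁻ r, ‖h j r‖ₑ) ^ q with hB
  have hBtop : B ≠ ⊤ := by
    refine ENNReal.sum_ne_top.2 fun j _ => ENNReal.rpow_ne_top_of_nonneg (by linarith) ?_
    exact (hi j).2.ne
  refine ⟨(J : ℝ≥0∞) ^ (q - 1) * C * B, ENNReal.mul_ne_top (ENNReal.mul_ne_top
    (ENNReal.rpow_ne_top_of_nonneg (by linarith) (ENNReal.natCast_ne_top J)) hC) hBtop,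
    fun k ι s ξ f hf => ?_⟩
  -- the decomposition
  have hdec : ∀ i ∈ s, ∀ x, f i x = ∑ j ∈ Finset.range J, Tm (h j) (f i) x := by
    intro i hi' x
    obtain ⟨S, iS, σ, g, φ, h1, h2, h3, h4, h5⟩ := hf.fr i hi'
    have e1 : ∀ j ∈ Finset.range J, Tm (h j) (f i) x
        = ∫ t, (φ t * (wdw w (b0 + j * w) (g t).2.1 : ℂ)) * ph (pr x (g t)) ∂σ :=
      fun j _ => Tm_rep (hi j) (hχ j) h2 h3 h5 x
    rw [Finset.sum_congr rfl e1, ← integral_finsetSum]
    · rw [h5]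
      refine integral_congr_ae (Filter.Eventually.of_forall fun t => ?_)
      simp only
      rw [← Finset.sum_mul, ← Finset.mul_sum]
      by_cases ht : φ t = 0
      · simp [ht]
      · obtain ⟨k1, k2, -, -⟩ := h4 t ht
        have e2 : ∑ j ∈ Finset.range J, (wdw w (b0 + j * w) (g t).2.1 : ℂ) = 1 := by
          have := wdw_sum_one (w := w) (b := b0) (v := (g t).2.1) (J := J) hwp
            (by linarith) (k2.trans hJ')
          exact_mod_cast this
        rw [e2, mul_one]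
    · intro j _
      refine int_mul (int_mul h3 _ ?_ fun a => ?_) _ ?_ fun a => (ph_norm _).le
      · have : Measurable (fun t => wdw w (b0 + j * w) (g t).2.1) :=
          (wdw_smooth w _).continuous.measurable.comp h2.snd.fst
        exact (Complex.measurable_ofReal.comp this).aestronglyMeasurable
      · rw [Complex.norm_real]; exact wdw_le _ _ _
      · exact ((ph_cont.comp (pr_cont x)).measurable.comp h2).aestronglyMeasurable
  -- each window
  have hwin : ∀ j ∈ Finset.range J, Ineq q (C * fac m q ε k) s (fun i => Tm (h j) (f i)) := by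
    intro j _
    have hbj : v0 / 2 ≤ b0 + j * w := by
      have : (0 : ℝ) ≤ j * w := by positivity
      linarith
    refine one_win (a := a) (b := b0 + j * w) hv0 hbj (fun ι' s' ξ' f' hf' => hw k ι' s' ξ' f' hf')
      hf fun i hi' => ?_
    refine (Tm_Fc (hi j) (wdw_smooth w _).continuous (wdw_le w _) (hχ j) (hf.fr i hi')).mono ?_
    rintro ζ ⟨h1, h2⟩
    refine ⟨h1, ?_⟩
    obtain ⟨h3, h4⟩ := wdw_supp hwp h2
    refine ⟨h3, h4.trans ?_⟩
    have : 2 * w ≤ (b0 + j * w) * (1 / 4 ^ a) := by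
      have e : 2 * w = b0 * (1 / 4 ^ a) := by rw [hwd]; field_simp
      rw [e]
      refine mul_le_mul_of_nonneg_right ?_ (by positivity)
      have : (0 : ℝ) ≤ j * w := by positivity
      linarith
    linarith
  have hcont : ∀ i ∈ s, Continuous (f i) := fun i hi' => (hf.fr i hi').continuous
  have hTc : ∀ j, ∀ i ∈ s, Continuous (Tm (h j) (f i)) := fun j i hi' =>
    (Tm_Fc (hi j) (wdw_smooth w _).continuous (wdw_le w _) (hχ j) (hf.fr i hi')).continuous
  unfold Ineq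
  calc ∫⁻ x, ‖∑ i ∈ s, f i x‖ₑ ^ q
      ≤ ∫⁻ x, (J : ℝ≥0∞) ^ (q - 1) * ∑ j ∈ Finset.range J, ‖∑ i ∈ s, Tm (h j) (f i) x‖ₑ ^ q := by
        refine lintegral_mono fun x => ?_
        have e1 : ∑ i ∈ s, f i x = ∑ j ∈ Finset.range J, ∑ i ∈ s, Tm (h j) (f i) x := by
          rw [Finset.sum_comm]
          exact Finset.sum_congr rfl fun i hi' => hdec i hi' x
        rw [e1]
        refine (ENNReal.rpow_le_rpow (enorm_sum_le _ _) (by linarith)).trans ?_
        have := ENNReal.rpow_sum_le_const_mul_sum_rpow (Finset.range J)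
          (fun j => ‖∑ i ∈ s, Tm (h j) (f i) x‖ₑ) hq
        rwa [Finset.card_range] at this
    _ = (J : ℝ≥0∞) ^ (q - 1) * ∑ j ∈ Finset.range J, ∫⁻ x, ‖∑ i ∈ s, Tm (h j) (f i) x‖ₑ ^ q := by
        have hm : ∀ j, Measurable (fun x => ‖∑ i ∈ s, Tm (h j) (f i) x‖ₑ ^ q) := fun j =>
          ((continuous_finsetSum s (hTc j)).measurable.enorm).pow_const q
        rw [lintegral_const_mul _ (Finset.measurable_sum _ fun j _ => hm j),
          lintegral_finsetSum _ fun j _ => hm j]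
    _ ≤ (J : ℝ≥0∞) ^ (q - 1) * ∑ j ∈ Finset.range J,
          C * fac m q ε k * ∑ i ∈ s, ∫⁻ x, ‖Tm (h j) (f i) x‖ₑ ^ q := by
        refine mul_le_mul_right (Finset.sum_le_sum fun j hj => ?_) _
        exact hwin j hj
    _ ≤ (J : ℝ≥0∞) ^ (q - 1) * ∑ j ∈ Finset.range J,
          C * fac m q ε k * ∑ i ∈ s, (∫⁻ r, ‖h j r‖ₑ) ^ q * ∫⁻ x, ‖f i x‖ₑ ^ q := by
        refine mul_le_mul_right (Finset.sum_le_sum fun j _ => ?_) _
        refine mul_le_mul_right (Finset.sum_le_sum fun i hi' => ?_) _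
        exact Tm_norm hq (hc j) (hcont i hi')
    _ = (J : ℝ≥0∞) ^ (q - 1) * C * B * fac m q ε k * ∑ i ∈ s, ∫⁻ x, ‖f i x‖ₑ ^ q := by
        simp only [← Finset.mul_sum]
        rw [← Finset.sum_mul]
        ring

end Pool.LibCN33
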