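import Pool.Agent.LibCN33.A8
import Pool.Agent.LibST49.Defs

set_option autoImplicit false

noncomputable section

open MeasureTheory Set
open scoped ENNReal

namespace Pool.LibCN33

open Pool.LibDC71 (E V ch Fr)

/-- exchange of the last two variables -/
def sw {m : ℕ} (x : W m) : W m := (x.1, x.2.2, x.2.1)

theorem sw_sw {m : ℕ} (x : W m) : sw (sw x) = x := rfl

theorem sw_mp (m : ℕ) : MeasurePreserving (sw : W m → W m) volume volume := by
  have h2 : MeasurePreserving (Prod.swap : ℝ × ℝ → ℝ × ℝ) volume volume :=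
    MeasureTheory.Measure.measurePreserving_swap
  exact (MeasurePreserving.id (volume : Measure (E m))).prod h2

theorem sw_cont {m : ℕ} : Continuous (sw : W m → W m) := by
  unfold sw; fun_prop

theorem e1_ph (t : ℝ) : Pool.LibST49.e1 t = ph t := rfl

theorem pr3_sw {m : ℕ} (x z : W m) : Pool.LibST49.pr3 (sw x) z = pr x (sw z) := by
  unfold Pool.LibST49.pr3 pr sw
  simp only
  ring

/-- the functions Fi3 g, in the coordinates (x', y, t) -/
theorem Fi3_Fc {m : ℕ} {U : Set (W m)} {g : W m → ℂ} (hg : Integrable g)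
    (hU : ∀ z, g z ≠ 0 → sw z ∈ U) : Fc U (fun x => Pool.LibST49.Fi3 g (sw x)) := by
  refine ⟨W m, inferInstance, volume, sw, g, inferInstance, sw_cont.measurable, hg, hU,
    fun z => ?_⟩
  change Pool.LibST49.Fi3 g (sw z) = _
  unfold Pool.LibST49.Fi3
  refine integral_congr_ae (Filter.Eventually.of_forall fun s => ?_)
  simp only
  rw [pr3_sw, e1_ph, mul_comm]

/-- decoupling for the cone in the coordinates of LibST49 -/
theorem cdec_of_PD {m : ℕ} {q : ℝ} (hq : 1 ≤ q) (hPD : PD m q) : Pool.LibST49.CDec m q := by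
  intro A R0 L v0 v1 ε hv0 hε
  obtain ⟨C, hC, h⟩ := cone hq hPD (|A| / v0) R0 v0 v1 ε ⌈L⌉₊ hv0 hε
  refine ⟨C.toReal + 1, by positivity, fun k ι I c g hF => ?_⟩
  have hfam : Fam (|A| / v0) R0 v0 v1 ⌈L⌉₊ k I c (fun i x => Pool.LibST49.Fi3 (g i) (sw x)) := by
    refine ⟨hF.cen, fun i _ => ?_, fun i hi => Fi3_Fc (hF.int i hi) fun z hz => ?_⟩
    · have h1 := hF.mult (c i)
      have h2 : ({j | j ∈ I ∧ ‖c j - c i‖ ≤ 1 / 2 ^ k}.ncard : ℝ) ≤ ⌈L⌉₊ := by
        have e : (1 : ℝ) / 2 ^ k = (2 : ℝ)⁻¹ ^ k := by rw [inv_pow, one_div]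
        rw [e]
        exact h1.trans (Nat.le_ceil L)
      exact_mod_cast h2
    · obtain ⟨h1, h2, h3, h4⟩ := hF.supp i hi z hz
      obtain ⟨η, u, v⟩ := z
      simp only [cr, sw, Set.mem_ofPred_eq] at h1 h2 h3 h4 ⊢
      have hv : 0 < v := by linarith
      have hvi : v⁻¹ ≤ v0⁻¹ := inv_anti₀ hv0 h1
      have e2 : (2 : ℝ)⁻¹ ^ k = 1 / 2 ^ k := by rw [inv_pow, one_div]
      have e4 : (4 : ℝ)⁻¹ ^ k = 1 / 4 ^ k := by rw [inv_pow, one_div]
      rw [e2] at h3
      rw [e4] at h4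
      refine ⟨h1, h2, ?_, ?_⟩
      · have e : v⁻¹ • η - c i = v⁻¹ • (η - v • c i) := by
          rw [smul_sub, smul_smul, inv_mul_cancel₀ hv.ne', one_smul]
        rw [e, norm_smul, Real.norm_eq_abs, abs_of_pos (inv_pos.2 hv)]
        calc v⁻¹ * ‖η - v • c i‖ ≤ v0⁻¹ * (|A| * (1 / 2 ^ k)) := by
              refine mul_le_mul hvi (h3.trans ?_) (norm_nonneg _) (by positivity)
              exact mul_le_mul_of_nonneg_right (le_abs_self A) (by positivity)
          _ = |A| / v0 / 2 ^ k := by ring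
      · have e : u - ‖η‖ ^ 2 / v = v⁻¹ * (u * v - ‖η‖ ^ 2) := by field_simp
        rw [e, abs_mul, abs_of_pos (inv_pos.2 hv)]
        calc v⁻¹ * |u * v - ‖η‖ ^ 2| ≤ v0⁻¹ * (|A| * (1 / 4 ^ k)) := by
              refine mul_le_mul hvi (h4.trans ?_) (abs_nonneg _) (by positivity)
              exact mul_le_mul_of_nonneg_right (le_abs_self A) (by positivity)
          _ = |A| / v0 / 4 ^ k := by ring
  have h5 := h k ι I c _ hfam
  unfold Ineq at h5
  have hcF : ∀ i ∈ I, Measurable (Pool.LibST49.Fi3 (g i)) := by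
    intro i hi
    have h6 := ((hfam.fr i hi).continuous).comp (sw_cont (m := m))
    exact h6.measurable
  rw [← (sw_mp m).lintegral_comp (f := fun x => ‖∑ i ∈ I, Pool.LibST49.Fi3 (g i) x‖ₑ ^ q)
    (((Finset.measurable_sum I fun i hi => hcF i hi).enorm).pow_const q)]
  have e3 : ∀ i ∈ I, ∫⁻ x : W m, ‖Pool.LibST49.Fi3 (g i) (sw x)‖ₑ ^ q
      = ∫⁻ x : W m, ‖Pool.LibST49.Fi3 (g i) x‖ₑ ^ q := fun i hi =>
    (sw_mp m).lintegral_comp (f := fun x => ‖Pool.LibST49.Fi3 (g i) x‖ₑ ^ q)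
      (((hcF i hi).enorm).pow_const q)
  rw [Finset.sum_congr rfl e3] at h5
  refine h5.trans (mul_le_mul_left ?_ _)
  have h2p : (0 : ℝ) < (2 : ℝ) ^ ((k : ℝ) * (ε + m * (q / 2 - 1))) := by positivity
  rw [ENNReal.ofReal_mul (by positivity)]
  refine mul_le_mul' ?_ (le_of_eq ?_)
  · calc C = ENNReal.ofReal C.toReal := (ENNReal.ofReal_toReal hC).symm
      _ ≤ ENNReal.ofReal (C.toReal + 1) := ENNReal.ofReal_le_ofReal (by linarith)
  · unfold fac
    rw [← ENNReal.ofReal_rpow_of_pos (by norm_num : (0 : ℝ) < 2)]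
    congr 1
    · simp
    · ring

end Pool.LibCN33
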