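import Pool.Agent.LibDC71.Defs

set_option autoImplicit false

noncomputable section

open MeasureTheory Set
open scoped ENNReal

namespace Pool.LibCN33

open Pool.LibDC71 (E V ch Fr)

/-- the space of (x', y, t), and of the frequencies (eta, v, u) -/
abbrev W (m : ℕ) := E m × ℝ × ℝ

/-- the pairing -/
def pr {m : ℕ} (x z : W m) : ℝ := inner ℝ x.1 z.1 + x.2.1 * z.2.1 + x.2.2 * z.2.2

/-- the phase factor exp(2 pi i s) -/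
def ph (s : ℝ) : ℂ := Complex.exp (2 * (Real.pi : ℂ) * Complex.I * (s : ℂ))

/-- superpositions of characters of W m with frequencies in U -/
def Fc {m : ℕ} (U : Set (W m)) (f : W m → ℂ) : Prop :=
  ∃ (S : Type) (_ : MeasurableSpace S) (σ : Measure S) (g : S → W m) (φ : S → ℂ),
    SFinite σ ∧ Measurable g ∧ Integrable φ σ ∧ (∀ s, φ s ≠ 0 → g s ∈ U) ∧
      ∀ z, f z = ∫ s, φ s * ph (pr z (g s)) ∂σ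

/-- the cone region over the cap of centre c and level k, v between v0 and v1 -/
def cr {m : ℕ} (A v0 v1 : ℝ) (k : ℕ) (c : E m) : Set (W m) :=
  {ζ | v0 ≤ ζ.2.1 ∧ ζ.2.1 ≤ v1 ∧ ‖(ζ.2.1)⁻¹ • ζ.1 - c‖ ≤ A / 2 ^ k ∧
    |ζ.2.2 - ‖ζ.1‖ ^ 2 / ζ.2.1| ≤ A / 4 ^ k}

/-- a family of cone pieces of level k -/
structure Fam {m : ℕ} (A R0 v0 v1 : ℝ) (L k : ℕ) {ι : Type} (s : Finset ι) (ξ : ι → E m)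
    (f : ι → W m → ℂ) : Prop where
  cen : ∀ i ∈ s, ‖ξ i‖ ≤ R0
  cnt : ∀ i ∈ s, {j | j ∈ s ∧ ‖ξ j - ξ i‖ ≤ 1 / 2 ^ k}.ncard ≤ L
  fr : ∀ i ∈ s, Fc (cr A v0 v1 k (ξ i)) (f i)

/-- the inequality with constant D -/
def Ineq {m : ℕ} (q : ℝ) (D : ℝ≥0∞) {ι : Type} (s : Finset ι) (f : ι → W m → ℂ) : Prop :=
  ∫⁻ x, ‖∑ i ∈ s, f i x‖ₑ ^ q ≤ D * ∑ i ∈ s, ∫⁻ x, ‖f i x‖ₑ ^ q

/-- the factor 2^((ε + m(q/2-1)) k) -/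
def fac (m : ℕ) (q ε : ℝ) (k : ℕ) : ℝ≥0∞ := 2 ^ ((ε + m * (q / 2 - 1)) * k)

/-- what the cone step uses of the paraboloid: for centres in a ball, arbitrary multiplicity -/
def PD (m : ℕ) (q : ℝ) : Prop :=
  ∀ (A R0 ε : ℝ) (L : ℕ), 0 < ε →
    ∃ C : ℝ≥0∞, C ≠ ⊤ ∧ ∀ (k : ℕ) (ι : Type) (s : Finset ι) (ξ : ι → E m) (f : ι → V m → ℂ),
      (∀ i ∈ s, ‖ξ i‖ ≤ R0) →
      (∀ i ∈ s, {j | j ∈ s ∧ ‖ξ j - ξ i‖ ≤ 1 / 2 ^ k}.ncard ≤ L) →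
      (∀ i ∈ s, Fr {ζ | ‖ζ.1 - ξ i‖ ≤ A / 2 ^ k ∧ |ζ.2 - ‖ζ.1‖ ^ 2| ≤ A / 4 ^ k} (f i)) →
      ∫⁻ z, ‖∑ i ∈ s, f i z‖ₑ ^ q ≤
        C * 2 ^ ((ε + m * (q / 2 - 1)) * k) * ∑ i ∈ s, ∫⁻ z, ‖f i z‖ₑ ^ q

/-- decoupling for the cone, coordinates (eta, v, u) -/
def CD (m : ℕ) (q : ℝ) : Prop :=
  ∀ (A R0 v0 v1 ε : ℝ) (L : ℕ), 0 < v0 → 0 < ε →
    ∃ C : ℝ≥0∞, C ≠ ⊤ ∧ ∀ (k : ℕ) (ι : Type) (s : Finset ι) (ξ : ι → E m) (f : ι → W m → ℂ),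
      Fam A R0 v0 v1 L k s ξ f → Ineq q (C * fac m q ε k) s f

end Pool.LibCN33
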